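import Mathlib

set_option autoImplicit false
open Set Filter Topology TopologicalSpace

namespace Pool.Agent.Results.MP_31ff53_gt.NotKSpace

instance : (cocountable : Filter ℝ).NeBot :=
  ⟨fun h => not_countable_univ (α := ℝ) (by
    have : (∅ : Set ℝ) ∈ (cocountable : Filter ℝ) := h ▸ mem_bot
    rwa [mem_cocountable, compl_empty] at this)⟩

noncomputable def u : Ultrafilter ℝ := Ultrafilter.of (cocountable : Filter ℝ)

lemma not_mem_u {C : Set ℝ} (h : C.Countable) : C ∉ u := fun hC =>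
  (Ultrafilter.compl_mem_iff_notMem.1 (Ultrafilter.of_le _ (mem_cocountable.2 (by rwa [compl_compl])))) hC

abbrev X : Type := {p : Ultrafilter ℝ // (∃ C : Set ℝ, C.Countable ∧ C ∈ p) ∨ p = u}

def hat (A : Set ℝ) : Set X := {p | A ∈ p.1}

def pt (x : ℝ) : X := ⟨pure x, Or.inl ⟨{x}, countable_singleton x, by simp⟩⟩

noncomputable def U : X := ⟨u, Or.inr rfl⟩

def BB : Set (Set X) := {b | ∃ A : Set ℝ, (A.Countable ∨ A ∈ u) ∧ b = hat A}

lemma hat_clopen (A : Set ℝ) : IsClopen (hat A) :=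
  ⟨(ultrafilter_isClosed_basic A).preimage continuous_subtype_val,
    (ultrafilter_isOpen_basic A).preimage continuous_subtype_val⟩

lemma disj_hat {A B : Set ℝ} : Disjoint (hat A) (hat B) ↔ Disjoint A B := by
  simp only [Set.disjoint_left]
  constructor
  · intro h x hA hB
    exact h (a := pt x) (by simpa [hat, pt] using hA) (by simpa [hat, pt] using hB)
  · intro h p hA hB
    obtain ⟨x, hx⟩ := Ultrafilter.nonempty_of_mem (inter_mem (f := (p.1 : Filter ℝ)) hA hB)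
    exact h hx.1 hx.2

lemma basis : IsTopologicalBasis BB := by
  refine isTopologicalBasis_of_isOpen_of_nhds ?_ fun p V hp hV => ?_
  · rintro _ ⟨A, -, rfl⟩; exact (hat_clopen A).isOpen
  · obtain ⟨W, hW, rfl⟩ := isOpen_induced_iff.1 hV
    obtain ⟨_, ⟨A, rfl⟩, h1, h2⟩ := ultrafilterBasis_is_basis.exists_subset_of_mem_open hp hW
    rcases p.2 with ⟨C, hC, hCp⟩ | hu
    · exact ⟨hat (A ∩ C), ⟨_, Or.inl (hC.mono inter_subset_right), rfl⟩,
        inter_mem (f := (p.1 : Filter ℝ)) h1 hCp,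
        fun q hq => h2 (mem_of_superset (f := (q.1 : Filter ℝ)) hq inter_subset_left)⟩
    · exact ⟨hat A, ⟨_, Or.inr (hu ▸ h1), rfl⟩, h1, fun q hq => h2 hq⟩

lemma nested (C D : Set (Set X)) (hC : C ⊆ BB) (hD : D ⊆ BB) (hc : C.Countable)
    (h : ∀ c ∈ C, ∀ d ∈ D, Disjoint c d) :
    ∃ f ∈ BB, (∀ c ∈ C, c ⊆ f) ∧ ∀ d ∈ D, Disjoint f d := by
  have hC' : ∀ c, c ∈ C → ∃ A : Set ℝ, (A.Countable ∨ A ∈ u) ∧ c = hat A := fun c h => hC h
  choose! A hA1 hA2 using hC'
  refine ⟨hat (⋃ c ∈ C, A c), ⟨_, ?_, rfl⟩, fun c hcC p hp => ?_, fun d hd => ?_⟩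
  · by_cases h1 : ∀ c ∈ C, (A c).Countable
    · exact Or.inl (hc.biUnion h1)
    · push Not at h1
      obtain ⟨c, h2, h3⟩ := h1
      exact Or.inr (mem_of_superset (f := (u : Filter ℝ)) ((hA1 c h2).resolve_left h3)
        (subset_biUnion_of_mem (u := A) h2))
  · rw [hA2 c hcC] at hp
    exact mem_of_superset (f := (p.1 : Filter ℝ)) hp (subset_biUnion_of_mem (u := A) hcC)
  · obtain ⟨E, -, rfl⟩ := hD hd
    rw [disj_hat, disjoint_iUnion₂_left]
    intro c hcC
    rw [← disj_hat, ← hA2 c hcC]; exact h c hcC _ hd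

lemma cocompact :
    @CompactSpace X (generateFrom {V | ∃ b ∈ BB, V = (closure b)ᶜ}) := by
  set S : Set (Set X) := {V | ∃ b ∈ BB, V = (closure b)ᶜ} with hS
  refine @CompactSpace.mk X (generateFrom S) ?_
  refine (@isCompact_iff_ultrafilter_le_nhds X (generateFrom S) _).2 fun F _ => ?_
  have key : ∃ x : X, ∀ A : Set ℝ, (A.Countable ∨ A ∈ u) → hat A ∈ F → x ∈ hat A := by
    let q : Ultrafilter ℝ := joinM (F.map Subtype.val)
    have hq : ∀ A : Set ℝ, A ∈ q ↔ hat A ∈ F := fun A => Iff.rfl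
    by_cases h : ∃ C : Set ℝ, C.Countable ∧ C ∈ q
    · exact ⟨⟨q, Or.inl h⟩, fun A _ hA => (hq A).2 hA⟩
    · exact ⟨U, fun A h1 hA => h1.resolve_left fun h2 => h ⟨A, h2, (hq A).2 hA⟩⟩
  obtain ⟨x, hx⟩ := key
  refine ⟨x, mem_univ _, ?_⟩
  rw [nhds_generateFrom, le_iInf₂_iff]
  rintro _ ⟨hxV, _, ⟨A, hA, rfl⟩, rfl⟩
  rw [(hat_clopen A).isClosed.closure_eq] at hxV ⊢
  rw [le_principal_iff]
  exact Ultrafilter.compl_mem_iff_notMem.2 fun h => hxV (hx A hA h)

lemma supp_of_compact {K : Set X} (hK : IsCompact K) (hU : U ∉ K) :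
    ∃ C : Set ℝ, C.Countable ∧ K ⊆ hat C := by
  refine hK.induction_on (p := fun L => ∃ C : Set ℝ, C.Countable ∧ L ⊆ hat C)
    ⟨∅, countable_empty, empty_subset _⟩ (fun s t hst ⟨C, h1, h2⟩ => ⟨C, h1, hst.trans h2⟩)
    (fun s t ⟨C, h1, h2⟩ ⟨E, h3, h4⟩ => ⟨C ∪ E, h1.union h3, union_subset
      (fun p hp => mem_of_superset (f := (p.1 : Filter ℝ)) (h2 hp) subset_union_left)
      (fun p hp => mem_of_superset (f := (p.1 : Filter ℝ)) (h4 hp) subset_union_right)⟩)
    fun p hp => ?_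
  rcases p.2 with ⟨C, hC, hCp⟩ | hu
  · exact ⟨hat C, mem_nhdsWithin_of_mem_nhds ((hat_clopen C).isOpen.mem_nhds hCp), C, hC, subset_rfl⟩
  · exact absurd (show U ∈ K from (Subtype.ext hu : p = U) ▸ hp) hU

lemma supp {K : Set X} (hK : IsCompact K) : ∃ C : Set ℝ, C.Countable ∧ ∀ p ∈ K, p ≠ U → p ∈ hat C := by
  obtain ⟨M, hM⟩ := zorn_subset
    {M : Set (Set ℝ) | M.Pairwise Disjoint ∧ ∀ C ∈ M, C.Countable ∧ ∃ p ∈ K, p ∈ hat C}
    (fun c hc hch => ⟨⋃₀ c, ⟨by
      rintro a ⟨s, hs, ha⟩ b ⟨t, ht, hb⟩ hab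
      rcases hch.total hs ht with h | h
      · exact (hc ht).1 (h ha) hb hab
      · exact (hc hs).1 ha (h hb) hab, fun C ⟨s, hs, hC⟩ => (hc hs).2 C hC⟩,
      fun s hs => subset_sUnion_of_mem hs⟩)
  obtain ⟨hM1, hM2⟩ := hM.prop
  by_cases hc : M.Countable
  · refine ⟨⋃₀ M, hc.sUnion fun C hC => (hM2 C hC).1, fun p hp hpU => ?_⟩
    by_contra hn
    obtain ⟨E, hE, hEp⟩ := p.2.resolve_right fun h => hpU (Subtype.ext h)
    have h1 : E \ ⋃₀ M ∈ p.1 :=
      inter_mem (f := (p.1 : Filter ℝ)) hEp (Ultrafilter.compl_mem_iff_notMem.2 hn)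
    have h2 : E \ ⋃₀ M ∈ M := by
      refine hM.le_of_ge (y := insert (E \ ⋃₀ M) M) ⟨?_, ?_⟩ (subset_insert _ _) (mem_insert _ _)
      · refine hM1.insert fun C hC _ => ?_
        have : Disjoint (E \ ⋃₀ M) C := disjoint_sdiff_left.mono_right (subset_sUnion_of_mem hC)
        exact ⟨this, this.symm⟩
      · rintro C (rfl | hC)
        · exact ⟨hE.mono diff_subset, p, hp, h1⟩
        · exact hM2 C hC
    obtain ⟨x, hx⟩ := Ultrafilter.nonempty_of_mem h1
    exact hx.2 ⟨_, h2, hx⟩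
  · exfalso
    have hinf : Infinite M := by
      by_contra h
      have := not_infinite_iff_finite.1 h
      exact hc (toFinite M).countable
    have key : ∀ j : M → M, Function.Injective j → (⋃ m, (j m : Set ℝ)) ∈ u := by
      intro j hj
      by_contra hn
      obtain ⟨C, hC, hKC⟩ := supp_of_compact (hK.inter_right (hat_clopen (⋃ m, (j m : Set ℝ))).isClosed)
        fun h => hn h.2
      have : ∀ m : M, ∃ x, x ∈ C ∧ x ∈ (j m : Set ℝ) := by
        intro m
        obtain ⟨p, hp, hpm⟩ := (hM2 _ (j m).2).2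
        exact Ultrafilter.nonempty_of_mem (inter_mem (f := (p.1 : Filter ℝ))
          (hKC ⟨hp, mem_of_superset (f := (p.1 : Filter ℝ)) hpm
            (subset_iUnion (fun m => (j m : Set ℝ)) m)⟩) hpm)
      choose g g1 g2 using this
      have := hC.to_subtype
      refine hc (Function.Injective.countable (f := fun m : M => (⟨g m, g1 m⟩ : C)) fun a b hab => ?_)
      by_contra hne
      have e : g a = g b := congrArg Subtype.val hab
      exact Set.disjoint_left.1 (hM1 (j a).2 (j b).2 fun h => hne (hj (Subtype.ext h))) (g2 a)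
        (e ▸ g2 b)
    obtain ⟨e⟩ : Nonempty (M ⊕ M ≃ M) := by
      rw [← Cardinal.eq, Cardinal.mk_sum, Cardinal.lift_id]
      exact Cardinal.add_eq_self (Cardinal.aleph0_le_mk M)
    obtain ⟨x, hx1, hx2⟩ := Ultrafilter.nonempty_of_mem (inter_mem (f := (u : Filter ℝ))
      (key (e ∘ Sum.inl) (e.injective.comp Sum.inl_injective))
      (key (e ∘ Sum.inr) (e.injective.comp Sum.inr_injective)))
    obtain ⟨a, ha⟩ := mem_iUnion.1 hx1
    obtain ⟨b, hb⟩ := mem_iUnion.1 hx2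
    exact Set.disjoint_left.1 (hM1 (e (Sum.inl a)).2 (e (Sum.inr b)).2
      fun h => Sum.inl_ne_inr (e.injective (Subtype.ext h))) ha hb

/-- A Tychonoff space with a cocompact pretty base which is not a k-space. -/
theorem result :
    ∃ (Y : Type) (_ : TopologicalSpace Y) (B : Set (Set Y)),
      T35Space Y ∧
      IsTopologicalBasis B ∧
      (∀ b ∈ B, IsClopen b) ∧
      (∀ C D : Set (Set Y), C ⊆ B → D ⊆ B → C.Countable → (∀ c ∈ C, ∀ d ∈ D, Disjoint c d) →
        ∃ f ∈ B, (∀ c ∈ C, c ⊆ f) ∧ ∀ d ∈ D, Disjoint f d) ∧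
      @CompactSpace Y (generateFrom {V | ∃ b ∈ B, V = (closure b)ᶜ}) ∧
      ¬ (∀ A : Set Y, (∀ K : Set Y, IsCompact K → IsClosed ((Subtype.val : K → Y) ⁻¹' A)) →
        IsClosed A) := by
  refine ⟨X, inferInstance, BB, inferInstance, basis, ?_, nested, cocompact, fun h => ?_⟩
  · rintro _ ⟨A, -, rfl⟩; exact hat_clopen A
  · have h1 := h {U}ᶜ fun K hK => by
      obtain ⟨C, hC, hKC⟩ := supp hK
      have : (Subtype.val : K → X) ⁻¹' {U}ᶜ = Subtype.val ⁻¹' hat C := by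
        ext p
        exact ⟨fun hp => hKC _ p.2 hp, fun hp e => not_mem_u hC (by
          have e' : p.1 = U := e
          have : p.1 ∈ hat C := hp
          rwa [e'] at this)⟩
      rw [this]
      exact (hat_clopen C).isClosed.preimage continuous_subtype_val
    obtain ⟨_, ⟨A, -, rfl⟩, h2, h3⟩ :=
      basis.exists_subset_of_mem_open (mem_singleton U) (isClosed_compl_iff.1 h1)
    obtain ⟨x, hx⟩ := Ultrafilter.nonempty_of_mem (f := u) h2
    have h4 : pt x = U := h3 (by simpa [hat, pt] using hx)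
    have h5 : (pure x : Ultrafilter ℝ) = u := congrArg Subtype.val h4
    exact not_mem_u (countable_singleton x) (by rw [← h5]; simp)

end Pool.Agent.Results.MP_31ff53_gt.NotKSpace
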